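import Pool.Agent.Lib.MP_b1a3a4_al.MVS.TH.Iface

/-!
# Module BETA (13.30)

Realization of the bounded labelled cubes by maps to the simplicial complex, natural for faces and
degeneracies.
-/

set_option linter.all false

namespace Pool.Agent.Lib.MP_b1a3a4_al.MVS.TH.H96

open Pool.Agent.Lib.MP_b1a3a4_al.MVS.TH

section tr

variable {S V : Type} [Group S] [MulAction S V]

lemma tr_apply (s : S) (x : V → ℝ) (v : V) : tr s x v = x (s⁻¹ • v) := rfl

lemma tr_tr (s s' : S) (x : V → ℝ) : tr s (tr s' x) = tr (s * s') x := by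
  funext v
  simp [tr_apply, mul_smul]

lemma tr_one (x : V → ℝ) : tr (1 : S) x = x := by
  funext v
  simp [tr_apply]

lemma continuous_tr (s : S) : Continuous (tr s : (V → ℝ) → V → ℝ) :=
  continuous_pi (fun v => continuous_apply _)

lemma mem_trs (s : S) (σ : Finset V) (v : V) : v ∈ trs s σ ↔ s⁻¹ • v ∈ σ := by
  unfold trs
  rw [Finset.mem_map]
  constructor
  · rintro ⟨w, hw, rfl⟩
    simpa using hw
  · intro h
    exact ⟨s⁻¹ • v, h, by simp⟩

lemma tr_mem_Rz {K K' : Set (Finset V)} (s : S) (hK : ∀ σ ∈ K, trs s σ ∈ K') {x : V → ℝ}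
    (hx : x ∈ Rz K) : tr s x ∈ Rz K' := by
  obtain ⟨h0, σ, hσ, h1, h2⟩ := hx
  refine ⟨fun v => h0 _, trs s σ, hK σ hσ, ?_, ?_⟩
  · intro v hv
    rw [mem_trs] at hv
    exact h1 _ hv
  · rw [← h2, trs, Finset.sum_map]
    refine Finset.sum_congr rfl (fun v _ => ?_)
    simp [tr_apply]

lemma ml_smul {q : ℕ} (s : S) (c : Lab V q) (x : Cu q) :
    ml (fun b => s • c b) x = tr s (ml c x) := by
  classical
  funext v
  rw [tr_apply, ml_apply, ml_apply]
  refine Finset.sum_congr rfl (fun b _ => ?_)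
  by_cases h : s • c b = v
  · have h' : c b = s⁻¹ • v := by rw [← h]; simp
    simp [h, h']
  · have h' : ¬ c b = s⁻¹ • v := fun h' => h (by rw [h']; simp)
    simp [h, h']

end tr

lemma Rz_mono {V : Type} {K K' : Set (Finset V)} (h : K ⊆ K') {x : V → ℝ} (hx : x ∈ Rz K) :
    x ∈ Rz K' := by
  obtain ⟨h0, σ, hσ, h1⟩ := hx
  exact ⟨h0, σ, h hσ, h1⟩

lemma kt_anti {V : Type} (K : Set (Finset V)) (h : V → ℝ) {s t : ℝ} (hst : s ≤ t) :
    kt K h t ⊆ kt K h s := fun σ hσ => ⟨hσ.1, fun v hv => hst.trans (hσ.2 v hv)⟩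

lemma kt_sub {V : Type} (K : Set (Finset V)) (h : V → ℝ) (t : ℝ) : kt K h t ⊆ K :=
  fun σ hσ => hσ.1

section labs

variable {S V : Type} [Group S] [MulAction S V] {χ : S →* Multiplicative ℝ} {h : V → ℝ}
  {lam : V → S}

lemma fib_finite (H : LabS S V χ h lam) {B : Set S} (hB : B.Finite) : {v | lam v ∈ B}.Finite := by
  have : {v | lam v ∈ B} = ⋃ b ∈ B, (fun v : V => b • v) '' {v | lam v = 1} := by
    ext v
    simp only [Set.mem_setOf_eq, Set.mem_iUnion, Set.mem_image, exists_prop]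
    constructor
    · intro hv
      exact ⟨lam v, hv, (lam v)⁻¹ • v, by simp [H.smul], by simp⟩
    · rintro ⟨b, hb, w, hw, rfl⟩
      rw [H.smul, hw, mul_one]
      exact hb
  rw [this]
  exact hB.biUnion (fun b _ => H.fib.image _)

lemma ht_bound (H : LabS S V χ h lam) :
    ∃ C : ℝ, 0 ≤ C ∧ ∀ v, |h v - Multiplicative.toAdd (χ (lam v))| ≤ C := by
  have hfin : ((fun v => |h v|) '' {v | lam v = 1}).Finite := H.fib.image _
  obtain ⟨C, hC⟩ := hfin.bddAbove
  refine ⟨max C 0, le_max_right _ _, fun v => ?_⟩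
  have h1 : lam ((lam v)⁻¹ • v) = 1 := by simp [H.smul]
  have h2 : h v = h ((lam v)⁻¹ • v) + Multiplicative.toAdd (χ (lam v)) := by
    rw [← H.ht]; simp
  rw [h2, add_sub_cancel_right]
  exact (hC ⟨_, h1, rfl⟩).trans (le_max_left _ _)

lemma bd_smul (H : LabS S V χ h lam) {B : Set S} {q : ℕ} {c : Lab V q} (hc : Bd lam B c) (s : S) :
    Bd lam B (fun b => s • c b) := by
  intro x y
  rw [H.smul, H.smul]
  have : (s * lam (c x))⁻¹ * (s * lam (c y)) = (lam (c x))⁻¹ * lam (c y) := by group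
  rw [this]
  exact hc x y

/-- The normalized bounded cubes form a finite set. -/
lemma cubes_finite (H : LabS S V χ h lam) {B : Set S} (hB : B.Finite) (q : ℕ) :
    {c : Lab V q | Bd lam B c ∧ lam (c (fun _ => false)) = 1}.Finite := by
  have h1 : (Set.pi Set.univ (fun _ : Fin q → Bool => {v | lam v ∈ B})).Finite :=
    Set.Finite.pi' (fun _ => fib_finite H hB) |>.subset (by
      intro c hc i; exact hc i (Set.mem_univ _))
  refine h1.subset ?_
  rintro c ⟨hc, hc1⟩ b _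
  have := hc (fun _ => false) b
  rw [hc1] at this
  simpa using this

end labs

lemma img_smul {S V : Type} [Group S] [MulAction S V] {q : ℕ} (s : S) (c : Lab V q) :
    img (fun b => s • c b) = trs s (img c) := by
  ext v
  rw [mem_img, mem_trs, mem_img]
  constructor
  · rintro ⟨b, rfl⟩; exact ⟨b, by simp⟩
  · rintro ⟨b, hb⟩; exact ⟨b, by rw [hb]; simp⟩

lemma img_dg {V : Type} {q : ℕ} (i : Fin (q + 1)) (c : Lab V q) : img (dg i c) = img c := by
  ext v
  rw [mem_img, mem_img]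
  constructor
  · rintro ⟨b, rfl⟩; exact ⟨rem i b, rfl⟩
  · rintro ⟨b, rfl⟩; exact ⟨ins i false b, by simp [dg]⟩

lemma img_fc {V : Type} {q : ℕ} (i : Fin (q + 1)) (ε : Bool) (c : Lab V (q + 1)) :
    img (fc i ε c) ⊆ img c := by
  intro v
  rw [mem_img, mem_img]
  rintro ⟨b, rfl⟩; exact ⟨ins i ε b, rfl⟩

lemma img_nonempty {V : Type} {q : ℕ} (c : Lab V q) : (img c).Nonempty :=
  ⟨c (fun _ => false), (mem_img c _).2 ⟨_, rfl⟩⟩

section fam

variable {S V : Type} [Group S] [MulAction S V] (K : Set (Finset V)) (lam : V → S) (B : Set S)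

open Classical in
/-- the chosen filling of a family -/
noncomputable def fillc {q : ℕ} (a : Fin (q + 1) → Bool → Cu q → V → ℝ) : Cu (q + 1) → V → ℝ :=
  if h : ∃ f : Cu (q + 1) → V → ℝ, (Continuous f ∧ ∀ x, f x ∈ Rz K) ∧
    ∀ i ε x, f (fi i ε x) = a i ε x then h.choose else fun _ _ => 0

lemma fillc_spec {q : ℕ} (a : Fin (q + 1) → Bool → Cu q → V → ℝ)
    (h : ∃ f : Cu (q + 1) → V → ℝ, (Continuous f ∧ ∀ x, f x ∈ Rz K) ∧
      ∀ i ε x, f (fi i ε x) = a i ε x) :
    (Continuous (fillc K a) ∧ ∀ x, fillc K a x ∈ Rz K) ∧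
      ∀ i ε x, fillc K a (fi i ε x) = a i ε x := by
  rw [fillc, dif_pos h]
  exact h.choose_spec

/-- the finite sets of maps -/
noncomputable def Fq : ∀ q, Set (Cu q → V → ℝ)
  | 0 => {f | ∃ c : Lab V 0, (Bd lam B c ∧ lam (c (fun _ => false)) = 1) ∧ f = ml c}
  | q + 1 => {f | ∃ (i : Fin (q + 1)) (φ : Cu q → V → ℝ), φ ∈ Fq q ∧ f = fun x => φ (rem i x)} ∪
      {f | ∃ c : Lab V (q + 1), (Bd lam B c ∧ lam (c (fun _ => false)) = 1) ∧ img c ∈ K ∧
        f = ml c} ∪
      {f | ∃ s : Fin (q + 1) × Bool → S × (Cu q → V → ℝ),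
        (∀ p, (s p).1 ∈ B ∧ (s p).2 ∈ Fq q) ∧
        f = fillc K (fun i ε x => tr (s (i, ε)).1 ((s (i, ε)).2 x)) ∧
        (Continuous f ∧ ∀ x, f x ∈ Rz K)}

lemma Fq_finite {χ : S →* Multiplicative ℝ} {h : V → ℝ} (H : LabS S V χ h lam) (hB : B.Finite) :
    ∀ q, (Fq K lam B q).Finite
  | 0 => by
    have h1 := (cubes_finite H hB 0).image (fun c : Lab V 0 => ml c)
    refine h1.subset ?_
    rintro f ⟨c, hc, rfl⟩
    exact ⟨c, hc, rfl⟩
  | q + 1 => by
    have IH := Fq_finite H hB q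
    rw [Fq]
    refine ((?_ : Set.Finite _).union ?_).union ?_
    · have h1 : (Set.univ ×ˢ Fq K lam B q : Set (Fin (q + 1) × (Cu q → V → ℝ))).Finite :=
        Set.finite_univ.prod IH
      refine (h1.image (fun p => fun x : Cu (q + 1) => p.2 (rem p.1 x))).subset ?_
      rintro f ⟨i, φ, hφ, rfl⟩
      exact ⟨(i, φ), ⟨Set.mem_univ _, hφ⟩, rfl⟩
    · refine ((cubes_finite H hB (q + 1)).image (fun c : Lab V (q + 1) => ml c)).subset ?_
      rintro f ⟨c, hc, _, rfl⟩
      exact ⟨c, hc, rfl⟩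
    · have h1 : {s : Fin (q + 1) × Bool → S × (Cu q → V → ℝ) |
          ∀ p, s p ∈ B ×ˢ Fq K lam B q}.Finite :=
        Set.Finite.pi' (fun _ => hB.prod IH)
      refine (h1.image (fun s => fillc K
        (fun i ε x => tr (s (i, ε)).1 ((s (i, ε)).2 x)))).subset ?_
      rintro f ⟨s, hs, rfl, _⟩
      exact ⟨s, fun p => ⟨(hs p).1, (hs p).2⟩, rfl⟩

lemma ml_mem_Rz (hml : MlStatement) {q : ℕ} (c : Lab V q) (hc : img c ∈ K) (x : Cu q) :
    ml c x ∈ Rz K := by
  have h := hml.2.2.2.2.2.2 V K (fun _ => 0) 0 q c x hc (fun _ => le_rfl)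
  exact Rz_mono (kt_sub K _ _) h

lemma Fq_good (hml : MlStatement) (hvert : ∀ v : V, {v} ∈ K) :
    ∀ q, ∀ f ∈ Fq K lam B q, Continuous f ∧ ∀ x, f x ∈ Rz K
  | 0 => by
    rintro f ⟨c, hc, rfl⟩
    refine ⟨hml.1 V 0 c, fun x => ml_mem_Rz K hml c ?_ x⟩
    have : img c = {c (fun _ => false)} := by
      ext v
      rw [mem_img, Finset.mem_singleton]
      constructor
      · rintro ⟨b, rfl⟩
        congr 1
        exact Subsingleton.elim _ _
      · rintro rfl; exact ⟨_, rfl⟩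
    rw [this]
    exact hvert _
  | q + 1 => by
    have IH := Fq_good hml hvert q
    rintro f ((⟨i, φ, hφ, rfl⟩ | ⟨c, hc, hK, rfl⟩) | ⟨s, hs, hf, hg⟩)
    · exact ⟨(IH φ hφ).1.comp (continuous_rem i), fun x => (IH φ hφ).2 _⟩
    · exact ⟨hml.1 V _ c, fun x => ml_mem_Rz K hml c hK x⟩
    · exact hg

end fam

/-- Filling of a compatible family of continuous maps. -/
lemma fill_family (hfam : FamStatement) {V : Type} {K : Set (Finset V)} {q : ℕ}
    (hK : Fills q (Rz K) (Rz K)) (a : Fin (q + 1) → Bool → Cu q → V → ℝ)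
    (ha : ∀ i ε, Continuous (a i ε) ∧ ∀ x, a i ε x ∈ Rz K) (hc : Compat a) :
    ∃ f : Cu (q + 1) → V → ℝ, (Continuous f ∧ ∀ x, f x ∈ Rz K) ∧
      ∀ i ε x, f (fi i ε x) = a i ε x := by
  obtain ⟨f₀, hf₀⟩ := hfam.2 (V → ℝ) q a hc
  have h1 : ContinuousOn f₀ (Cube.boundary (Fin (q + 1))) := by
    rw [hfam.1 (V → ℝ) q f₀]
    intro i ε
    have : (fun x => f₀ (fi i ε x)) = a i ε := by funext x; exact hf₀ i ε x
    rw [this]
    exact (ha i ε).1
  have h2 : ∀ x ∈ Cube.boundary (Fin (q + 1)), f₀ x ∈ Rz K := by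
    intro x hx
    obtain ⟨i, ε, y, rfl⟩ := (mem_boundary_iff x).1 hx
    rw [hf₀]
    exact (ha i ε).2 y
  obtain ⟨g, hg1, hg2, hg3⟩ := hK f₀ h1 h2
  refine ⟨g, ⟨hg1, hg2⟩, fun i ε x => ?_⟩
  rw [hg3 _ (fi_mem_boundary i ε x), hf₀]

theorem beta (hml : MlStatement) (hcomp : CompactStatement) (hrecd : RecdStatement)
    (hfam : FamStatement) : BetaStatement := by
  intro S V _ _ χ n K h lam G B hB
  have H := G.labs
  have hgood := Fq_good K lam B hml G.vert
  have hfin := Fq_finite K lam B H hB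
  have htrK : ∀ (s : S) (x : V → ℝ), x ∈ Rz K → tr s x ∈ Rz K :=
    fun s x hx => tr_mem_Rz s (G.inv s) hx
  -- the multilinear maps are admissible
  have hmlc : ∀ q (c : Lab V q), ml c = fun x => tr (lam (c (fun _ => false)))
      (ml (fun b => (lam (c (fun _ => false)))⁻¹ • c b) x) := by
    intro q c
    funext x
    rw [ml_smul, tr_tr, mul_inv_cancel, tr_one]
  have hnorm : ∀ q (c : Lab V q), Bd lam B c →
      Bd lam B (fun b => (lam (c (fun _ => false)))⁻¹ • c b) ∧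
      lam ((fun b => (lam (c (fun _ => false)))⁻¹ • c b) (fun _ => false)) = 1 := by
    intro q c hc
    refine ⟨bd_smul H hc _, ?_⟩
    simp only [H.smul]
    exact inv_mul_cancel _
  obtain ⟨β, hβ1, hβ2, hβ3⟩ := hrecd V (V → ℝ) (fun q c => Bd lam B c)
    (fun q c f => (img c ∈ K → f = ml c) ∧ ∃ φ ∈ Fq K lam B q,
      f = fun x => tr (lam (c (fun _ => false))) (φ x)) n
    (fun q c i ε hc => bd_fc hc i ε) (fun q c i hc => bd_dg hc i)
    (by
      intro c hc
      refine ⟨ml c, fun _ => rfl, ml (fun b => (lam (c (fun _ => false)))⁻¹ • c b), ?_,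
        hmlc 0 c⟩
      exact ⟨_, hnorm 0 c hc, rfl⟩)
    (by
      rintro q c i f hq hc ⟨h1, φ, hφ, rfl⟩
      refine ⟨?_, fun x => φ (rem i x), ?_, ?_⟩
      · intro hK
        rw [img_dg] at hK
        funext x
        rw [hml.2.2.1 V q c i x, ← h1 hK]
      · exact Or.inl (Or.inl ⟨i, φ, hφ, rfl⟩)
      · rfl)
    (by
      intro q c hq hc hnd a ha hcompat
      by_cases hK : img c ∈ K
      · refine ⟨ml c, ⟨fun _ => rfl, ml (fun b => (lam (c (fun _ => false)))⁻¹ • c b), ?_,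
          hmlc _ c⟩, ?_⟩
        · refine Or.inl (Or.inr ⟨_, hnorm _ c hc, ?_, rfl⟩)
          rw [img_smul]
          exact G.inv _ _ hK
        · intro i ε x
          rw [hml.2.1 V q c i ε x]
          have h1 : img (fc i ε c) ∈ K := G.down _ hK _ (img_fc i ε c) (img_nonempty _)
          rw [(ha i ε).1 h1]
      · -- translate the family
        choose φ hφ hφa using fun i ε => (ha i ε).2
        set g := lam (c (fun _ => false)) with hg
        have hg' : ∀ i ε, g⁻¹ * lam (fc i ε c (fun _ => false)) ∈ B := fun i ε => hc _ _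
        have hfill : ∃ f : Cu (q + 1) → V → ℝ, (Continuous f ∧ ∀ x, f x ∈ Rz K) ∧
            ∀ i ε x, f (fi i ε x) =
              tr (g⁻¹ * lam (fc i ε c (fun _ => false))) (φ i ε x) := by
          refine fill_family hfam (G.conn q (by omega)) _ ?_ ?_
          · intro i ε
            refine ⟨(continuous_tr _).comp (hgood q _ (hφ i ε)).1, fun x => ?_⟩
            exact htrK _ _ ((hgood q _ (hφ i ε)).2 x)
          · intro i ε x j δ y hxy
            have h1 := hcompat i ε x j δ y hxy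
            rw [hφa, hφa] at h1
            simp only [← tr_tr]
            simp only at h1
            rw [h1]
        obtain ⟨hs1, hs2⟩ := fillc_spec K _ hfill
        refine ⟨fun x => tr g (fillc K (fun i ε x =>
          tr (g⁻¹ * lam (fc i ε c (fun _ => false))) (φ i ε x)) x),
          ⟨fun h => absurd h hK, _, ?_, rfl⟩, ?_⟩
        · refine Or.inr ⟨fun p => (g⁻¹ * lam (fc p.1 p.2 c (fun _ => false)), φ p.1 p.2),
            fun p => ⟨hg' _ _, hφ _ _⟩, rfl, hs1⟩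
        · intro i ε x
          simp only
          rw [hs2, tr_tr, mul_inv_cancel_left]
          conv_rhs => rw [hφa])
  -- the constants
  obtain ⟨C, hC0, hC⟩ := ht_bound H
  have hD1 : ∃ D₁ : ℝ, 0 ≤ D₁ ∧ ∀ q, q ≤ n → ∀ φ ∈ Fq K lam B q, ∀ x,
      φ x ∈ Rz (kt K h (-D₁)) := by
    have hq : ∀ q, ∃ D₁ : ℝ, 0 ≤ D₁ ∧ ∀ φ ∈ Fq K lam B q, ∀ x, φ x ∈ Rz (kt K h (-D₁)) := by
      intro q
      have h1 : ∀ φ ∈ Fq K lam B q, ∃ D : ℝ, ∀ x, φ x ∈ Rz (kt K h (-D)) := by
        intro φ hφ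
        exact hcomp S V χ n K h lam G q φ (hgood q φ hφ).1 (hgood q φ hφ).2
      choose! D hD using h1
      obtain ⟨M, hM⟩ := ((hfin q).image D).bddAbove
      refine ⟨max M 0, le_max_right _ _, fun φ hφ x => ?_⟩
      have h2 : D φ ≤ max M 0 := (hM ⟨φ, hφ, rfl⟩).trans (le_max_left _ _)
      exact Rz_mono (kt_anti K h (neg_le_neg h2)) (hD φ hφ x)
    choose D hD0 hD using hq
    obtain ⟨M, hM⟩ := ((Set.finite_Iic n).image D).bddAbove
    refine ⟨max M 0, le_max_right _ _, fun q hq φ hφ x => ?_⟩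
    have h2 : D q ≤ max M 0 := (hM ⟨q, hq, rfl⟩).trans (le_max_left _ _)
    exact Rz_mono (kt_anti K h (neg_le_neg h2)) (hD q φ hφ x)
  obtain ⟨D₁, hD₁0, hD₁⟩ := hD1
  refine ⟨β, C + D₁, by positivity, ⟨?_, ?_, hβ2, hβ3⟩, ?_⟩
  · intro q hq c hc
    obtain ⟨_, φ, hφ, he⟩ := hβ1 q hq c hc
    rw [he]
    exact (continuous_tr _).comp (hgood q φ hφ).1
  · intro q hq c hc t ht x
    obtain ⟨_, φ, hφ, he⟩ := hβ1 q hq c hc
    rw [he]
    simp only
    have h1 := hD₁ q hq φ hφ x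
    have h2 : t ≤ h (c (fun _ => false)) := ht _
    have h3 := (abs_le.1 (hC (c (fun _ => false)))).2
    refine tr_mem_Rz _ ?_ h1
    intro σ hσ
    refine ⟨G.inv _ _ hσ.1, fun v hv => ?_⟩
    rw [mem_trs] at hv
    have h4 := hσ.2 _ hv
    have h5 := H.ht (lam (c (fun _ => false))) ((lam (c (fun _ => false)))⁻¹ • v)
    rw [smul_inv_smul] at h5
    rw [h5]
    linarith
  · intro q hq c hc hK
    exact (hβ1 q hq c hc).1 hK

end Pool.Agent.Lib.MP_b1a3a4_al.MVS.TH.H96
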