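import Pool.Agent.Lib.MP_b1a3a4_al.MVS.TH.Iface
import Pool.Agent.Lib.MP_b1a3a4_al.MVS.H88.Monoid

/-!
# Module CUBHS (13.4)

Filling of bounded cycles of labelled cubes with labels in the group.
-/

set_option linter.all false

namespace Pool.Agent.Lib.MP_b1a3a4_al.MVS.TH.H96

open Finsupp MVS MVS.H88

/-! ## Translates of cubes -/

section cubes

variable {S : Type} [Group S]

/-- translate of a cube -/
def trc (g : S) {q : ℕ} (c : Lab S q) : Lab S q := fun b => g * c b

lemma trc_trc (g g' : S) {q : ℕ} (c : Lab S q) : trc g (trc g' c) = trc (g * g') c := by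
  funext b; simp [trc, mul_assoc]

lemma trc_one {q : ℕ} (c : Lab S q) : trc 1 c = c := by funext b; simp [trc]

lemma isDeg_trc (g : S) : ∀ {q : ℕ} {c : Lab S q}, IsDeg c → IsDeg (trc g c)
  | 0, _, h => h
  | _ + 1, _, ⟨i, c', h⟩ => ⟨i, trc g c', by rw [h]; rfl⟩

lemma isDeg_trc_iff (g : S) {q : ℕ} {c : Lab S q} : IsDeg (trc g c) ↔ IsDeg c := by
  constructor
  · intro h
    have := isDeg_trc g⁻¹ h
    rwa [trc_trc, inv_mul_cancel, trc_one] at this
  · exact isDeg_trc g

lemma bd_trc {B : Set S} (g : S) {q : ℕ} {c : Lab S q} :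
    Bd (fun s : S => s) B (trc g c) ↔ Bd (fun s : S => s) B c := by
  unfold Bd trc
  refine forall_congr' fun x => forall_congr' fun y => ?_
  have : (g * c x)⁻¹ * (g * c y) = (c x)⁻¹ * c y := by group
  rw [this]

lemma cubes_fin {B : Set S} (hB : B.Finite) (q : ℕ) :
    {c : Lab S q | Bd (fun s : S => s) B c ∧ c (fun _ => false) = 1}.Finite := by
  have h1 : {c : Lab S q | ∀ b, c b ∈ B}.Finite := Set.Finite.pi' (fun _ => hB)
  refine h1.subset ?_
  rintro c ⟨hc, hc1⟩ b
  have := hc (fun _ => false) b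
  simp only [hc1, inv_one, one_mul] at this
  exact this

end cubes

/-! ## Displacement with control of the support -/

section disp

variable {k G : Type} [CommRing k] [Group G] (χ : Chr G)

/-- supported on `Y` -/
def SIn {X : Type} (Y : Set X) (v : X →₀ MonoidAlgebra k G) : Prop := ∀ x, v x ≠ 0 → x ∈ Y

lemma SIn.add {X : Type} {Y : Set X} {v w : X →₀ MonoidAlgebra k G} (hv : SIn Y v)
    (hw : SIn Y w) : SIn Y (v + w) := by
  intro x hx
  by_contra hxY
  apply hx
  rw [Finsupp.add_apply, not_not.1 (fun h => hxY (hv x h)), not_not.1 (fun h => hxY (hw x h)),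
    add_zero]

lemma SIn.mono {X : Type} {Y Y' : Set X} (h : Y ⊆ Y') {v : X →₀ MonoidAlgebra k G}
    (hv : SIn Y v) : SIn Y' v := fun x hx => h (hv x hx)

lemma SIn.sum {X ι : Type} {Y : Set X} (s : Finset ι) (f : ι → X →₀ MonoidAlgebra k G)
    (hf : ∀ i ∈ s, SIn Y (f i)) : SIn Y (∑ i ∈ s, f i) := by
  classical
  induction s using Finset.induction_on with
  | empty => intro x hx; simp at hx
  | insert i s hi ih =>
    rw [Finset.sum_insert hi]
    exact (hf i (Finset.mem_insert_self i s)).add (ih fun j hj => hf j (Finset.mem_insert_of_mem hj))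

lemma SIn.smul {X : Type} {Y : Set X} (a : MonoidAlgebra k G) {v : X →₀ MonoidAlgebra k G}
    (hv : SIn Y v) : SIn Y (a • v) := by
  intro x hx
  refine hv x (fun h => hx ?_)
  rw [Finsupp.smul_apply, h, smul_zero]

lemma disp2 {X X' : Type}
    (f : (X →₀ MonoidAlgebra k G) →ₗ[MonoidAlgebra k G] (X' →₀ MonoidAlgebra k G))
    {Y : Set X} (hY : Y.Finite) :
    ∃ (Y' : Set X') (D : ℝ), Y'.Finite ∧ 0 ≤ D ∧ ∀ a v, SIn Y v → LB χ a v →
      SIn Y' (f v) ∧ LB χ (a - D) (f v) := by
  classical
  choose D hD0 hD using fun x : X => LB_bdd χ (f (Finsupp.single x 1))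
  refine ⟨⋃ x ∈ Y, {y | y ∈ (f (Finsupp.single x 1)).support}, ∑ x ∈ hY.toFinset, D x,
    hY.biUnion (fun x _ => (f (Finsupp.single x 1)).support.finite_toSet),
    Finset.sum_nonneg fun x _ => hD0 x, ?_⟩
  intro a v hv hv'
  have e : f v = ∑ x ∈ v.support, v x • f (Finsupp.single x 1) := by
    conv_lhs => rw [← Finsupp.sum_single v, Finsupp.sum, map_sum]
    refine Finset.sum_congr rfl fun x _ => ?_
    rw [← map_smul, Finsupp.smul_single, smul_eq_mul, mul_one]
  have hvY : ∀ x ∈ v.support, x ∈ Y := fun x hx => hv x (Finsupp.mem_support_iff.1 hx)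
  rw [e]
  constructor
  · refine SIn.sum _ _ fun x hx => SIn.smul _ ?_
    intro y hy
    exact Set.mem_biUnion (hvY x hx) (Finsupp.mem_support_iff.2 hy)
  · refine LB_sum χ _ _ fun x hx => ?_
    refine LB_mono χ ?_ (LB_smul χ (hv' x) (hD x))
    have := Finset.single_le_sum (f := D) (fun x _ => hD0 x)
      (hY.mem_toFinset.2 (hvY x hx))
    linarith

end disp

/-! ## The chains of cubes -/

section main

variable {S : Type} [Group S]

/-- The data of KRES. -/
structure KR (S : Type) [Group S] where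
  F : GRes ℤ S
  cube : ∀ q, F.X q → Lab S q
  θ : ∀ q, (F.X q →₀ MonoidAlgebra ℤ S) →+ Chn S q
  nd : ∀ q x, ¬ IsDeg (cube q x) ∧ cube q x (fun _ => false) = 1
  surj : ∀ q (c : Lab S q), ¬ IsDeg c → c (fun _ => false) = 1 → ∃ x, cube q x = c
  inj : ∀ q, Function.Injective (cube q)
  single : ∀ q x (g : S) (m : ℤ), θ q (Finsupp.single x (MonoidAlgebra.single g m)) =
      Finsupp.single (fun b => g * cube q x b) m
  dd : ∀ q z, SuppIn IsDeg (dK (θ (q + 1) z) - θ q (F.d q z))

variable (K : KR S)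

lemma θ_apply (q : ℕ) (y : K.F.X q →₀ MonoidAlgebra ℤ S) (x : K.F.X q) (g : S) :
    K.θ q y (trc g (K.cube q x)) = (y x).coeff g := by
  classical
  induction y using Finsupp.induction_linear with
  | zero => simp
  | add v w hv hw =>
    rw [map_add, Finsupp.add_apply, hv, hw, Finsupp.add_apply, MonoidAlgebra.coeff_add,
      Finsupp.add_apply]
  | single x' a =>
    induction a using MonoidAlgebra.induction_linear with
    | zero => simp
    | add a b ha hb =>
      rw [Finsupp.single_add, map_add, Finsupp.add_apply, ha, hb, Finsupp.add_apply,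
        MonoidAlgebra.coeff_add, Finsupp.add_apply]
    | single g' m =>
      rw [K.single]
      by_cases hx : x' = x
      · subst hx
        rw [Finsupp.single_eq_same]
        by_cases hg : g' = g
        · subst hg
          have h1 : (MonoidAlgebra.single g' m : MonoidAlgebra ℤ S).coeff g' = m := by
            rw [MonoidAlgebra.coeff_single, Finsupp.single_eq_same]
          rw [h1]
          exact Finsupp.single_eq_same
        · have h1 : (MonoidAlgebra.single g' m : MonoidAlgebra ℤ S).coeff g = 0 := by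
            rw [MonoidAlgebra.coeff_single, Finsupp.single_eq_of_ne (fun h => hg h.symm)]
          rw [h1]
          refine Finsupp.single_eq_of_ne ?_
          intro h
          apply hg
          have h2 := congrFun h (fun _ => false)
          simp only [trc, (K.nd q x').2, mul_one] at h2
          exact h2.symm
      · rw [Finsupp.single_eq_of_ne (fun h => hx h.symm)]
        have h0 : ((0 : MonoidAlgebra ℤ S)).coeff g = 0 := by simp
        rw [h0]
        refine Finsupp.single_eq_of_ne ?_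
        intro h
        apply hx
        have h2 := congrFun h (fun _ => false)
        simp only [trc, (K.nd q x').2, (K.nd q x).2, mul_one] at h2
        subst h2
        apply K.inj q
        funext b
        have h3 := congrFun h b
        simp only [trc] at h3
        exact (mul_left_cancel h3).symm

lemma θ_zero_of_deg (q : ℕ) (y : K.F.X q →₀ MonoidAlgebra ℤ S) (h : SuppIn IsDeg (K.θ q y)) :
    y = 0 := by
  refine Finsupp.ext fun x => ?_
  have : ∀ g, (y x).coeff g = 0 := by
    intro g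
    by_contra hg
    rw [← θ_apply] at hg
    have h1 := h _ (Finsupp.mem_support_iff.2 hg)
    rw [isDeg_trc_iff] at h1
    exact (K.nd q x).1 h1
  refine MonoidAlgebra.ext (Finsupp.ext fun g => ?_)
  rw [this g]
  simp

/-- Every element in the support of `θ y` is a translate of a cube in the support. -/
lemma θ_supp (q : ℕ) (y : K.F.X q →₀ MonoidAlgebra ℤ S) {Y : Set (K.F.X q)} {χ : Chr S} {a : ℝ}
    (hY : SIn Y y) (ha : LB χ a y) :
    SuppIn (fun c => ∃ x ∈ Y, ∃ g, a ≤ val χ g ∧ c = trc g (K.cube q x)) (K.θ q y) := by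
  classical
  have e : K.θ q y = ∑ x ∈ y.support, ∑ g ∈ (y x).coeff.support,
      Finsupp.single (trc g (K.cube q x)) ((y x).coeff g) := by
    conv_lhs => rw [← Finsupp.sum_single y, Finsupp.sum, map_sum]
    refine Finset.sum_congr rfl fun x _ => ?_
    have e2 : y x = ∑ g ∈ (y x).coeff.support, MonoidAlgebra.single g ((y x).coeff g) := by
      refine MonoidAlgebra.ext (Finsupp.ext fun g => ?_)
      rw [MonoidAlgebra.coeff_sum, Finsupp.finset_sum_apply]
      simp only [MonoidAlgebra.coeff_single]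
      have h3 := congrArg (fun f => f g) (Finsupp.sum_single (y x).coeff)
      simp only [Finsupp.sum, Finsupp.finset_sum_apply] at h3
      exact h3.symm
    conv_lhs => rw [e2]
    rw [Finsupp.single_finset_sum, map_sum]
    refine Finset.sum_congr rfl fun g _ => ?_
    rw [K.single]
    rfl
  rw [e]
  refine SuppIn.sum _ fun x hx => SuppIn.sum _ fun g hg => suppIn_single ?_ _
  exact ⟨x, hY x (Finsupp.mem_support_iff.1 hx), g, ha x g hg, rfl⟩

/-- Bounded chains come from `F` modulo degenerate chains. -/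
lemma exists_pre (q : ℕ) {χ : Chr S} {B : Set S} {t : ℝ} (z : Chn S q)
    (hz : SuppIn (fun c => Bd (fun s : S => s) B c ∧ Up (fun s : S => val χ s) t c) z) :
    ∃ y : K.F.X q →₀ MonoidAlgebra ℤ S, SIn {x | Bd (fun s : S => s) B (K.cube q x)} y ∧
      LB χ t y ∧ SuppIn IsDeg (z - K.θ q y) := by
  classical
  have h1 : ∀ c : Lab S q, (Bd (fun s : S => s) B c ∧ Up (fun s : S => val χ s) t c) → ∀ m : ℤ,
      ∃ y : K.F.X q →₀ MonoidAlgebra ℤ S, SIn {x | Bd (fun s : S => s) B (K.cube q x)} y ∧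
        LB χ t y ∧ SuppIn IsDeg (Finsupp.single c m - K.θ q y) := by
    rintro c ⟨hc1, hc2⟩ m
    by_cases hd : IsDeg c
    · refine ⟨0, fun x hx => absurd rfl hx, LB_zero χ t, ?_⟩
      rw [map_zero, sub_zero]
      exact suppIn_single hd m
    · set g := c (fun _ => false) with hg
      obtain ⟨x, hx⟩ := K.surj q (trc g⁻¹ c) (by rwa [isDeg_trc_iff]) (by simp [trc, ← hg])
      refine ⟨Finsupp.single x (MonoidAlgebra.single g m), ?_, ?_, ?_⟩
      · intro x' hx'
        have : x' = x := by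
          by_contra hne
          exact hx' (Finsupp.single_eq_of_ne hne)
        subst this
        show Bd (fun s : S => s) B (K.cube q x')
        rw [hx, bd_trc]
        exact hc1
      · intro x'
        by_cases hne : x' = x
        · subst hne
          rw [Finsupp.single_eq_same]
          exact LE1_mono χ (hc2 _) (LE1_single χ g m)
        · rw [Finsupp.single_eq_of_ne hne]
          exact LE1_zero χ t
      · rw [K.single]
        have : (fun b => g * K.cube q x b) = c := by
          have h2 : trc g (K.cube q x) = c := by rw [hx, trc_trc, mul_inv_cancel, trc_one]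
          exact h2
        rw [this, sub_self]
        exact suppIn_zero _
  choose! y hy using h1
  refine ⟨∑ c ∈ z.support, y c (z c), SIn.sum _ _ fun c hc => (hy c (hz c hc) (z c)).1,
    LB_sum χ _ _ fun c hc => (hy c (hz c hc) (z c)).2.1, ?_⟩
  have e : z - K.θ q (∑ c ∈ z.support, y c (z c)) =
      ∑ c ∈ z.support, (Finsupp.single c (z c) - K.θ q (y c (z c))) := by
    rw [map_sum, Finset.sum_sub_distrib]
    congr 1
    exact (Finsupp.sum_single z).symm
  rw [e]
  exact SuppIn.sum _ fun c hc => (hy c (hz c hc) (z c)).2.2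

end main

theorem cubhs (hdk : DkdkStatement) (hkres : KresStatement) (hflat : FlatpStatement)
    (heq : HeqStatement) : CubhsStatement := by
  intro S _ χ n hχ hFP q hq B hB
  obtain ⟨F, cube, θ, k1, k2, k3, k4, k5⟩ := hkres S
  let K : KR S := ⟨F, cube, θ, k1, k2, k3, k4, k5⟩
  let χ' : Chr S := MonoidHom.toAdditiveLeft χ
  have hval : ∀ s : S, val χ' s = Multiplicative.toAdd (χ s) := fun _ => rfl
  have hχ' : χ' ≠ 0 := by
    intro h
    apply hχ
    ext s
    have h1 : val χ' s = 0 := by rw [h]; rfl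
    rw [hval] at h1
    exact h1
  have hmon : posSub χ = posMon χ' := by
    ext s
    exact Iff.rfl
  rw [hmon] at hFP
  obtain ⟨E, hEfin, C, hC0, hC⟩ := hflat ℤ S χ' hχ' n hFP
  obtain ⟨al, be, h, h', _, _, hal, hbe, _, hh, _, _⟩ :=
    heq (MonoidAlgebra ℤ S) (Triv ℤ S) K.F E
  -- the finite set of cubes and displacements
  have hYfin : {x : K.F.X (q + 1) | Bd (fun s : S => s) B (K.cube (q + 1) x)}.Finite := by
    have h1 := (cubes_fin hB (q + 1)).preimage (K.inj (q + 1)).injOn
    refine h1.subset ?_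
    intro x hx
    exact ⟨hx, (K.nd (q + 1) x).2⟩
  obtain ⟨Y1, D1, hY1, hD10, hD1⟩ := disp2 χ' (al (q + 1)) hYfin
  haveI : Finite (E.X (q + 2)) := hEfin (q + 2) hq
  obtain ⟨Y2, D2, hY2, hD20, hD2⟩ := disp2 χ' (be (q + 2)) (Set.finite_univ (α := E.X (q + 2)))
  obtain ⟨Y3, D3, hY3, hD30, hD3⟩ := disp2 χ' (h (q + 1)) hYfin
  -- the finite set of group elements and the maximal height
  have hY : (Y2 ∪ Y3).Finite := hY2.union hY3
  obtain ⟨M, hM0, hM⟩ : ∃ M : ℝ, 0 ≤ M ∧ ∀ x ∈ Y2 ∪ Y3, ∀ b,
      |val χ' (K.cube (q + 2) x b)| ≤ M := by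
    have h1 : ((Y2 ∪ Y3).image2 (fun x b => |val χ' (K.cube (q + 2) x b)|)
        (Set.univ : Set (Fin (q + 2) → Bool))).Finite := hY.image2 _ Set.finite_univ
    obtain ⟨M, hM⟩ := h1.bddAbove
    exact ⟨max M 0, le_max_right _ _, fun x hx b =>
      (hM ⟨x, hx, b, Set.mem_univ _, rfl⟩).trans (le_max_left _ _)⟩
  refine ⟨(Y2 ∪ Y3).image2 (fun x (b : (Fin (q + 2) → Bool) × (Fin (q + 2) → Bool)) =>
      (K.cube (q + 2) x b.1)⁻¹ * K.cube (q + 2) x b.2) Set.univ,
    D1 + C + D2 + D3 + M, hY.image2 _ Set.finite_univ, by positivity, ?_⟩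
  intro t z hz hdz
  obtain ⟨y, hy1, hy2, hy3⟩ := exists_pre K (q + 1) (χ := χ') (B := B) (t := t) z hz
  -- `y` is a cycle
  have hcyc : K.F.d q y = 0 := by
    apply θ_zero_of_deg K
    have h1 : K.θ q (K.F.d q y) = (dK z - dK (z - K.θ (q + 1) y)) -
        (dK (K.θ (q + 1) y) - K.θ q (K.F.d q y)) := by
      rw [map_sub]; abel
    rw [h1]
    exact (hdz.sub (hdk.2.1 S q _ hy3)).sub (K.dd q y)
  -- filling in `E`
  obtain ⟨_, ha2⟩ := hD1 t y hy1 hy2
  have hcyc2 : E.d q (al (q + 1) y) = 0 := by rw [hal, hcyc, map_zero]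
  obtain ⟨b₀, hb₀⟩ := (E.ex q _).1 hcyc2
  obtain ⟨b, hb1, hb2⟩ := hC (q + 1) (by omega) (t - D1) b₀ (by rw [hb₀]; exact ha2)
  rw [hb₀] at hb1
  obtain ⟨hc1, hc2⟩ := hD2 _ b (fun x _ => Set.mem_univ x) hb2
  obtain ⟨hd1, hd2⟩ := hD3 t y hy1 hy2
  set w' := be (q + 2) b + h (q + 1) y with hw'
  have hw1 : SIn (Y2 ∪ Y3) w' :=
    (hc1.mono Set.subset_union_left).add (hd1.mono Set.subset_union_right)
  have hw2 : LB χ' (t - (D1 + C + D2 + D3)) w' :=
    LB_add χ' (LB_mono χ' (by linarith) hc2) (LB_mono χ' (by linarith) hd2)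
  have hy4 : y = K.F.d (q + 1) w' := by
    have h1 := hh q y
    rw [hcyc, map_zero, add_zero, ← hb1, ← hbe] at h1
    rw [hw', map_add, ← h1]
    abel
  refine ⟨K.θ (q + 2) w', ?_, ?_⟩
  · intro c hc
    obtain ⟨x, hx, g, hg, rfl⟩ := θ_supp K (q + 2) w' hw1 hw2 c hc
    constructor
    · rw [bd_trc]
      intro b b'
      exact ⟨x, hx, (b, b'), Set.mem_univ _, rfl⟩
    · intro b
      show t - (D1 + C + D2 + D3 + M) ≤ val χ' (g * K.cube (q + 2) x b)
      rw [val_mul]
      have := (abs_le.1 (hM x hx b)).1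
      linarith
  · have h1 : z - dK (K.θ (q + 2) w') = (z - K.θ (q + 1) y) -
        (dK (K.θ (q + 1 + 1) w') - K.θ (q + 1) (K.F.d (q + 1) w')) := by
      rw [← hy4]; abel
    rw [h1]
    exact hy3.sub (K.dd (q + 1) w')

end Pool.Agent.Lib.MP_b1a3a4_al.MVS.TH.H96
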