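import Pool.Agent.Lib.MP_b1a3a4_al.MVS.TH.Iface
import Pool.Agent.Lib.MP_b1a3a4_al.MVS.H88.Monoid

/-!
# Module FLATP (13.3)

The resolution of `k` over `k[G]` induced from a resolution over `k[G_χ]`; linear filling with a
bound.
-/

set_option linter.all false

namespace Pool.Agent.Lib.MP_b1a3a4_al.MVS.TH.H96

open MonoidAlgebra Finsupp MVS MVS.H88

section flat

variable {k G : Type} [CommRing k] [Group G] (χ : Chr G)

lemma mp_inc_injective {Y : Type} : Function.Injective (mp (inc k χ) : (Y →₀ _) → (Y →₀ _)) := by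
  intro v w h
  refine Finsupp.ext fun y => inc_injective χ ?_
  rw [← mp_apply, ← mp_apply, h]

lemma mp_inc_LB {Y : Type} (v : Y →₀ MonoidAlgebra k (posMon χ)) : LB χ 0 (mp (inc k χ) v) := by
  intro y
  rw [mp_apply]
  exact inc_LE1 χ (v y)

/-- vectors with positions `≥ 0` come from `k[G_χ]` -/
lemma exists_mp {Y : Type} (z : Y →₀ MonoidAlgebra k G) (hz : LB χ 0 z) :
    ∃ v : Y →₀ MonoidAlgebra k (posMon χ), mp (inc k χ) v = z := by
  refine ⟨z.mapRange (back χ) (back_zero χ), ?_⟩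
  refine Finsupp.ext fun y => ?_
  rw [mp_apply, Finsupp.mapRange_apply]
  exact inc_back χ (hz y)

variable (P : FreeRes (MonoidAlgebra k (posMon χ)) (Triv k (posMon χ)))

/-- the induced augmentation -/
noncomputable def epsF : (P.X 0 →₀ MonoidAlgebra k G) →ₗ[MonoidAlgebra k G] Triv k G :=
  Finsupp.linearCombination (MonoidAlgebra k G)
    (fun x => (show Triv k G from (show k from P.ε (Finsupp.single x 1))))

lemma epsF_mp (v : P.X 0 →₀ MonoidAlgebra k (posMon χ)) :
    (show k from epsF χ P (mp (inc k χ) v)) = (show k from P.ε v) := by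
  induction v using Finsupp.induction_linear with
  | zero =>
    rw [mp_zero, map_zero, map_zero]; rfl
  | add v w hv hw =>
    rw [mp_add, map_add, map_add]
    exact congrArg₂ (fun a b : k => a + b) hv hw
  | single x a =>
    rw [mp_single]
    have h1 : Finsupp.single x a = a • (Finsupp.single x 1 : P.X 0 →₀ _) := by
      rw [Finsupp.smul_single, smul_eq_mul, mul_one]
    rw [h1, map_smul, triv_smul, epsF, Finsupp.linearCombination_single, triv_smul, aug_inc]

lemma epsF_d (z : P.X 1 →₀ MonoidAlgebra k G) : epsF χ P (bc (inc k χ) (P.d 0) z) = 0 := by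
  have h : epsF χ P ∘ₗ bc (inc k χ) (P.d 0) = 0 := by
    apply lin_ext
    intro x
    rw [LinearMap.comp_apply, bc_single, one_smul]
    have h1 := epsF_mp χ P (P.d 0 (Finsupp.single x 1))
    rw [P.ε_d] at h1
    exact h1
  exact LinearMap.congr_fun h z

variable {s : G} (hs : 0 < val χ s)

/-- translation by a power of `s` -/
noncomputable abbrev sh (s : G) (m : ℤ) : MonoidAlgebra k G := single (s ^ m) 1

lemma sh_mul (s : G) (m : ℤ) : (sh s (-m) : MonoidAlgebra k G) * sh s m = 1 := by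
  rw [sh, sh, single_mul_single, ← zpow_add, neg_add_cancel, zpow_zero, mul_one, one_def]

lemma sh_LB {Y : Type} (s : G) (m : ℤ) {t : ℝ} {z : Y →₀ MonoidAlgebra k G} (hz : LB χ t z) :
    LB χ (m * val χ s + t) ((sh s m : MonoidAlgebra k G) • z) := by
  have h1 := LE1_single χ (s ^ m) (1 : k)
  rw [val_zpow] at h1
  exact LB_smul χ h1 hz

include hs

lemma sh_pos {Y : Type} {t : ℝ} {z : Y →₀ MonoidAlgebra k G} (hz : LB χ t z) :
    ∃ m : ℤ, LB χ 0 ((sh s m : MonoidAlgebra k G) • z) ∧ t - val χ s ≤ (-m : ℤ) * val χ s := by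
  refine ⟨⌈-t / val χ s⌉, LB_mono χ ?_ (sh_LB χ s _ hz), ?_⟩
  · have h1 : -t / val χ s ≤ ⌈-t / val χ s⌉ := Int.le_ceil _
    rw [div_le_iff₀ hs] at h1
    linarith
  · have h1 : (⌈-t / val χ s⌉ : ℝ) < -t / val χ s + 1 := Int.ceil_lt_add_one _
    have h2 : (⌈-t / val χ s⌉ : ℝ) * val χ s ≤ (-t / val χ s + 1) * val χ s :=
      mul_le_mul_of_nonneg_right h1.le hs.le
    have h3 : (-t / val χ s + 1) * val χ s = -t + val χ s := by
      field_simp
    push_cast
    linarith

/-- bounded filling of cycles, in degree `0` -/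
lemma fill0 {t : ℝ} {z : P.X 0 →₀ MonoidAlgebra k G} (hz : LB χ t z) (he : epsF χ P z = 0) :
    ∃ b, bc (inc k χ) (P.d 0) b = z ∧ LB χ (t - val χ s) b := by
  obtain ⟨m, h1, h2⟩ := sh_pos χ hs hz
  obtain ⟨v, hv⟩ := exists_mp χ _ h1
  have h3 : P.ε v = 0 := by
    have h4 := epsF_mp χ P v
    rw [hv, map_smul, he, smul_zero] at h4
    exact h4.symm
  obtain ⟨y, hy⟩ := (P.ex0 v).1 h3
  refine ⟨(sh s (-m) : MonoidAlgebra k G) • mp (inc k χ) y, ?_, ?_⟩
  · rw [map_smul, bc_mp, hy, hv, smul_smul, sh_mul, one_smul]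
  · have h5 := sh_LB χ s (-m) (mp_inc_LB χ y)
    exact LB_mono χ (by linarith) h5

/-- bounded filling of cycles, in positive degree -/
lemma fillq (q : ℕ) {t : ℝ} {z : P.X (q + 1) →₀ MonoidAlgebra k G} (hz : LB χ t z)
    (he : bc (inc k χ) (P.d q) z = 0) :
    ∃ b, bc (inc k χ) (P.d (q + 1)) b = z ∧ LB χ (t - val χ s) b := by
  obtain ⟨m, h1, h2⟩ := sh_pos χ hs hz
  obtain ⟨v, hv⟩ := exists_mp χ _ h1
  have h3 : P.d q v = 0 := by
    apply mp_inc_injective χ
    rw [← bc_mp, hv, map_smul, he, smul_zero, mp_zero]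
  obtain ⟨y, hy⟩ := (P.ex q v).1 h3
  refine ⟨(sh s (-m) : MonoidAlgebra k G) • mp (inc k χ) y, ?_, ?_⟩
  · rw [map_smul, bc_mp, hy, hv, smul_smul, sh_mul, one_smul]
  · have h5 := sh_LB χ s (-m) (mp_inc_LB χ y)
    exact LB_mono χ (by linarith) h5

/-- the induced resolution -/
noncomputable def indF : GRes k G where
  X := P.X
  d := bcD (inc k χ) P.d
  ε := epsF χ P
  ε_surj := by
    intro a
    obtain ⟨v, hv⟩ := P.ε_surj (show Triv k (posMon χ) from (show k from a))
    refine ⟨mp (inc k χ) v, ?_⟩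
    have h := epsF_mp χ P v
    rw [hv] at h
    exact h
  ex0 := by
    intro z
    constructor
    · intro h
      obtain ⟨D, _, hD⟩ := LB_bdd χ z
      obtain ⟨b, hb, _⟩ := fill0 χ P hs hD h
      exact ⟨b, hb⟩
    · rintro ⟨y, rfl⟩
      exact epsF_d χ P y
  ex := by
    intro q z
    constructor
    · intro h
      obtain ⟨D, _, hD⟩ := LB_bdd χ z
      obtain ⟨b, hb, _⟩ := fillq χ P hs q hD h
      exact ⟨b, hb⟩
    · rintro ⟨y, rfl⟩
      exact bcD_isCx (inc k χ) P.isCx q y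

end flat

theorem flatp (hpres : FpresStatement) : FlatpStatement := by
  intro k G _ _ χ hχ n hFP
  obtain ⟨s, hs⟩ : ∃ s, 0 < val χ s := by
    by_contra hcon
    push Not at hcon
    apply hχ
    refine AddMonoidHom.ext fun g => ?_
    have h1 := hcon (Additive.toMul g)
    have h2 := hcon (Additive.toMul g)⁻¹
    rw [val_inv] at h2
    have h3 : val χ (Additive.toMul g) = 0 := by linarith
    exact h3
  obtain ⟨P, hP⟩ := (hpres (MonoidAlgebra k (posMon χ)) n (Triv k (posMon χ))).1 hFP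
  refine ⟨indF χ P hs, hP, val χ s, hs.le, fun q _ t b hb => ?_⟩
  cases q with
  | zero => exact fill0 χ P hs hb (epsF_d χ P b)
  | succ q => exact fillq χ P hs q hb (bcD_isCx (inc k χ) P.isCx q b)

end Pool.Agent.Lib.MP_b1a3a4_al.MVS.TH.H96
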