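import Pool.Agent.Lib.MP_b1a3a4_al.MVS.TH.Iface

/-!
# Module RECD (13.11)

Recursive construction of maps on labelled cubes, compatible with faces and degeneracies.
-/

set_option linter.all false

namespace Pool.Agent.Lib.MP_b1a3a4_al.MVS.TH.H96

open Pool.Agent.Lib.MP_b1a3a4_al.MVS.TH

lemma ev_inj {ε δ : Bool} (h : ev ε = ev δ) : ε = δ := by
  cases ε <;> cases δ <;> simp_all

/-- Analysis of the equation `fi i ε x = fi j δ y`. -/
lemma fi_eq_same {q : ℕ} {i : Fin (q + 1)} {ε δ : Bool} {x y : Cu q}
    (h : fi i ε x = fi i δ y) : ε = δ ∧ x = y := by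
  have := ins_inj i h
  exact ⟨ev_inj this.1, this.2⟩

lemma fi_eq_ne {q : ℕ} {i : Fin (q + 2)} {j : Fin (q + 1)} {ε δ : Bool} {x y : Cu (q + 1)}
    (h : fi i ε x = fi (i.succAbove j) δ y) :
    x = fi j δ (rem (j.predAbove i) y) ∧ y = fi (j.predAbove i) ε (rem (j.predAbove i) y) := by
  unfold fi at h
  rw [ins_eq_iff] at h
  obtain ⟨h1, h2⟩ := h
  constructor
  · rw [h2, rem_ins_ne]; rfl
  · have h3 : ev ε = y (j.predAbove i) := by
      rw [h1]
      have h4 := ins_succAbove (i.succAbove j) (ev δ) y (j.predAbove i)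
      rw [Fin.succAbove_succAbove_predAbove] at h4
      exact h4
    unfold fi
    rw [h3, ins_rem]

section rec

variable {T W : Type} [Nonempty W] (Adm : ∀ q, Lab T q → (Cu q → W) → Prop)

open Classical in
/-- the recursion -/
noncomputable def psi : ∀ q, Lab T q → Cu q → W
  | 0, c => if h : ∃ f, Adm 0 c f then h.choose else fun _ => Classical.arbitrary W
  | q + 1, c =>
    if h : ∃ (i : Fin (q + 1)) (c' : Lab T q), c = dg i c' then
      fun x => psi q h.choose_spec.choose (rem h.choose x)
    else if h2 : ∃ f : Cu (q + 1) → W, Adm (q + 1) c f ∧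
        ∀ i ε x, f (fi i ε x) = psi q (fc i ε c) x then h2.choose
    else fun _ => Classical.arbitrary W

lemma psi_dg_aux (q : ℕ) (c : Lab T (q + 1)) (h : IsDeg c) :
    ∃ (i : Fin (q + 1)) (c' : Lab T q), c = dg i c' ∧
      ∀ x, psi Adm (q + 1) c x = psi Adm q c' (rem i x) := by
  have h' : ∃ (i : Fin (q + 1)) (c' : Lab T q), c = dg i c' := h
  refine ⟨h'.choose, h'.choose_spec.choose, h'.choose_spec.choose_spec, fun x => ?_⟩
  rw [psi, dif_pos h']

lemma psi_nd (q : ℕ) (c : Lab T (q + 1)) (h : ¬ IsDeg c)
    (h2 : ∃ f : Cu (q + 1) → W, Adm (q + 1) c f ∧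
        ∀ i ε x, f (fi i ε x) = psi Adm q (fc i ε c) x) :
    Adm (q + 1) c (psi Adm (q + 1) c) ∧
        ∀ i ε x, psi Adm (q + 1) c (fi i ε x) = psi Adm q (fc i ε c) x := by
  have h' : ¬ ∃ (i : Fin (q + 1)) (c' : Lab T q), c = dg i c' := h
  have he : psi Adm (q + 1) c = h2.choose := by
    rw [psi, dif_neg h', dif_pos h2]
  rw [he]
  exact h2.choose_spec

variable (C : ∀ q, Lab T q → Prop) (N : ℕ)

lemma psi_dg (hfc : ∀ q c i ε, C (q + 1) c → C q (fc i ε c)) :
    ∀ q (c : Lab T q), C q c → ∀ i x, psi Adm (q + 1) (dg i c) x = psi Adm q c (rem i x)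
  | 0, c, hc, i, x => by
    obtain ⟨j, c', h1, h2⟩ := psi_dg_aux Adm 0 (dg i c) (isDeg_dg i c)
    have hij : i = j := Fin.ext (by omega)
    subst hij
    have hc' : c = c' := by
      rw [← fc_dg i false c, h1, fc_dg]
    subst hc'
    exact h2 x
  | q + 1, c, hc, i, x => by
    obtain ⟨j, c', h1, h2⟩ := psi_dg_aux Adm (q + 1) (dg i c) (isDeg_dg i c)
    rcases Fin.eq_self_or_eq_succAbove i j with hij | ⟨j', hij⟩
    · subst hij
      have hc' : c = c' := by
        rw [← fc_dg j false c, h1, fc_dg]
      subst hc'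
      exact h2 x
    · subst hij
      -- `e` is the common face
      have hcc : c' = dg (j'.predAbove i) (fc j' false c) := by
        rw [← fc_dg_ne, h1, fc_dg]
      have hc2 : c = dg j' (fc j' false c) := by
        have h3 : c = fc i false (dg (i.succAbove j') c') := by rw [← h1, fc_dg]
        have h4 := fc_dg_ne (i.succAbove j') (j'.predAbove i) false c'
        rw [Fin.succAbove_succAbove_predAbove] at h4
        have h5 : (j'.predAbove i).predAbove (i.succAbove j') = j' :=
          Fin.predAbove_predAbove_succAbove i j'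
        rw [h5] at h4
        have h6 : c = dg j' (fc (j'.predAbove i) false c') := by rw [h3, h4]
        rw [h6, fc_dg]
      have he : C q (fc j' false c) := hfc _ _ _ _ hc
      have IH := psi_dg hfc q (fc j' false c) he
      rw [h2 x, hcc, IH]
      conv_rhs => rw [hc2, IH]
      rw [rem_rem i j' x]

end rec

theorem recd : RecdStatement := by
  intro T W _ C Adm N hfc hdg h0 hAdm hfill
  have hD := psi_dg Adm C hfc
  -- admissibility and faces
  have key : ∀ q, q ≤ N → (∀ c, C q c → Adm q c (psi Adm q c)) ∧
      (∀ q', q = q' + 1 → ∀ c : Lab T (q' + 1), C (q' + 1) c → ∀ i ε x,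
        psi Adm (q' + 1) c (fi i ε x) = psi Adm q' (fc i ε c) x) := by
    intro q
    induction q with
    | zero =>
      intro _
      refine ⟨fun c hc => ?_, fun q' h => absurd h (by omega)⟩
      have h := h0 c hc
      rw [psi, dif_pos h]
      exact h.choose_spec
    | succ q ih =>
      intro hq
      obtain ⟨hA, hF⟩ := ih (by omega)
      have main : ∀ c : Lab T (q + 1), C (q + 1) c → Adm (q + 1) c (psi Adm (q + 1) c) ∧
          ∀ i ε x, psi Adm (q + 1) c (fi i ε x) = psi Adm q (fc i ε c) x := by
        intro c hc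
        by_cases hd : IsDeg c
        · obtain ⟨i₀, c', rfl⟩ := hd
          have hc' : C q c' := by
            have := hfc _ _ i₀ false hc
            rwa [fc_dg] at this
          have he : psi Adm (q + 1) (dg i₀ c') = fun x => psi Adm q c' (rem i₀ x) := by
            funext x; exact hD q c' hc' i₀ x
          constructor
          · rw [he]
            exact hAdm q c' i₀ _ hq hc' (hA c' hc')
          · intro i ε x
            rw [he]
            simp only
            rcases Fin.eq_self_or_eq_succAbove i₀ i with rfl | ⟨j, rfl⟩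
            · rw [fc_dg, fi, rem_ins]
            · cases q with
              | zero => exact j.elim0
              | succ q =>
                rw [fi, rem_ins_ne, fc_dg_ne, hD q _ (hfc _ _ _ _ hc')]
                exact hF q rfl c' hc' j ε _
        · apply psi_nd Adm q c hd
          apply hfill q c hq hc hd (fun i ε => psi Adm q (fc i ε c))
            (fun i ε => hA _ (hfc _ _ _ _ hc))
          intro i ε x j δ y hxy
          rcases Fin.eq_self_or_eq_succAbove i j with rfl | ⟨j', rfl⟩
          · obtain ⟨rfl, rfl⟩ := fi_eq_same hxy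
            rfl
          · cases q with
            | zero => exact j'.elim0
            | succ q =>
              obtain ⟨h1, h2⟩ := fi_eq_ne hxy
              simp only
              rw [h1]
              conv_rhs => rw [h2]
              rw [hF q rfl _ (hfc _ _ _ _ hc), hF q rfl _ (hfc _ _ _ _ hc), fc_fc]
      refine ⟨fun c hc => (main c hc).1, ?_⟩
      intro q' hq' c hc
      have : q = q' := by omega
      subst this
      exact (main c hc).2
  refine ⟨psi Adm, fun q hq => (key q hq).1, fun q hq => (key (q + 1) hq).2 q rfl,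
    fun q hq => hD q⟩

end Pool.Agent.Lib.MP_b1a3a4_al.MVS.TH.H96
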